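import Pool.Agent.X105.BE.Main

set_option autoImplicit false

/-!
# Hardy regularity of kernels of Bergman-space extremal functions

For every `1 < p < ∞` and every `1 < q₁ < ∞` (in particular for `q ≤ q₁ < ∞`, `q = p/(p-1)`): if `F`
is the `A^p` extremal function of a kernel `k ∈ A^q` and `F ∈ H^{(p-1)q₁}`, then `k ∈ H^{q₁}`.
-/

namespace Pool.Agent.Results.MP_397fae_an.HardyRegularity

open MeasureTheory Complex Metric

noncomputable section

/-- Normalised area measure `σ` on the open unit disc, `σ(𝔻) = 1`. -/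
def sigma : Measure ℂ := ENNReal.ofReal (1 / Real.pi) • volume.restrict (ball (0 : ℂ) 1)

/-- The integral mean `M_s(f, r)`. -/
def hardyMean (s : ℝ) (f : ℂ → ℂ) (r : ℝ) : ℝ :=
  ((1 / (2 * Real.pi)) * ∫ θ in (0 : ℝ)..(2 * Real.pi), ‖f (r * Complex.exp (θ * Complex.I))‖ ^ s)
    ^ (1 / s)

/-- The Hardy space `H^s` of the disc: analytic functions with bounded integral means. -/
def MemHardy (s : ℝ) (f : ℂ → ℂ) : Prop :=
  DifferentiableOn ℂ f (ball 0 1) ∧ ∃ C : ℝ, ∀ r : ℝ, 0 < r → r < 1 → hardyMean s f r ≤ C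

/-- The Bergman space `A^p` of the disc. -/
def MemBergman (p : ℝ) (f : ℂ → ℂ) : Prop :=
  DifferentiableOn ℂ f (ball 0 1) ∧ Integrable (fun z => ‖f z‖ ^ p) sigma

/-- The norm of `A^p`. -/
def bergmanNorm (p : ℝ) (f : ℂ → ℂ) : ℝ := (∫ z, ‖f z‖ ^ p ∂sigma) ^ (1 / p)

/-- The functional `φ(f) = ∫ f conj(k) dσ` with kernel `k`. -/
def phi (k f : ℂ → ℂ) : ℂ := ∫ z, f z * (starRingEnd ℂ) (k z) ∂sigma

/-- `F` is the extremal function (in `A^p`) for the kernel `k`: it has norm one and maximises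
`Re φ` over the unit sphere of `A^p`. -/
def IsExtremal (p : ℝ) (k F : ℂ → ℂ) : Prop :=
  MemBergman p F ∧ bergmanNorm p F = 1 ∧
    ∀ g : ℂ → ℂ, MemBergman p g → bergmanNorm p g = 1 → (phi k g).re ≤ (phi k F).re

/-- If the extremal function `F` of the kernel `k ∈ A^q` lies in `H^{(p-1)q₁}` then `k ∈ H^{q₁}`;
here `1 < p < ∞`, `q = p/(p-1)` and `1 < q₁ < ∞` are arbitrary (so the range `q ≤ q₁ < ∞` is
covered). -/
theorem result (p q q₁ : ℝ) (hp : 1 < p) (hq : q = p / (p - 1)) (hq₁ : 1 < q₁) (k F : ℂ → ℂ)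
    (hk : MemBergman q k) (_hk0 : ∃ z ∈ ball (0 : ℂ) 1, k z ≠ 0) (hF : IsExtremal p k F)
    (hFH : MemHardy ((p - 1) * q₁) F) : MemHardy q₁ k := by
  have hpq : p.HolderConjugate q := by rw [hq]; exact Real.HolderConjugate.conjExponent hp
  obtain ⟨⟨hFd, hFi⟩, hF1, hext⟩ := hF
  have hp0 : 0 < p := by linarith
  have hone : ∀ g : ℂ → ℂ, bergmanNorm p g = 1 ↔ ∫ z, ‖g z‖ ^ p ∂sigma = 1 := by
    intro g
    have h0 : 0 ≤ ∫ z, ‖g z‖ ^ p ∂sigma := integral_nonneg fun z => by positivity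
    unfold bergmanNorm
    constructor
    · intro h
      have := congrArg (fun x : ℝ => x ^ p) h
      simp only [Real.one_rpow] at this
      rwa [← Real.rpow_mul h0, one_div, inv_mul_cancel₀ hp0.ne', Real.rpow_one] at this
    · intro h
      rw [h, Real.one_rpow]
  have hmean : ∀ (s : ℝ) (f : ℂ → ℂ) (r : ℝ),
      (1 / (2 * Real.pi)) * ∫ θ in (0 : ℝ)..(2 * Real.pi),
        ‖f (r * Complex.exp (θ * Complex.I))‖ ^ s =
      ∫ θ, ‖f (circleMap 0 r θ)‖ ^ s ∂Pool.Agent.X105.BE.mT := by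
    intro s f r
    rw [Pool.Agent.X105.BE.integral_mT, smul_eq_mul, one_div]
    simp only [circleMap, zero_add]
  have hs : 0 < (p - 1) * q₁ := by
    have : 0 < p - 1 := by linarith
    positivity
  obtain ⟨hFd', C, hC⟩ := hFH
  have key := Pool.Agent.X105.BE.main_hardy hpq hq₁ hk.1 hk.2 hFd hFi ((hone F).1 hF1)
    (fun g hg hgi hg1 => hext g ⟨hg, hgi⟩ ((hone g).2 hg1)) ⟨C ^ ((p - 1) * q₁), ?_⟩
  · obtain ⟨C', hC'⟩ := key
    refine ⟨hk.1, C' ^ (1 / q₁), fun r hr0 hr => ?_⟩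
    unfold hardyMean
    rw [hmean]
    exact Real.rpow_le_rpow (integral_nonneg fun θ => by positivity) (hC' r hr0 hr)
      (by positivity)
  · intro r hr0 hr
    have h1 := hC r hr0 hr
    unfold hardyMean at h1
    rw [hmean] at h1
    have h0 : 0 ≤ ∫ θ, ‖F (circleMap 0 r θ)‖ ^ ((p - 1) * q₁) ∂Pool.Agent.X105.BE.mT :=
      integral_nonneg fun θ => by positivity
    have h2 := Real.rpow_le_rpow (by positivity) h1 hs.le
    rwa [← Real.rpow_mul h0, one_div, inv_mul_cancel₀ hs.ne', Real.rpow_one] at h2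

end

end Pool.Agent.Results.MP_397fae_an.HardyRegularity
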